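import Pool.Agent.H.MP_4d6ef8_an.C

set_option autoImplicit false

namespace Pool.Agent.Results.MP_4d6ef8_an.No

open Pool.Agent.H.MP_4d6ef8_an

/-- nonzero, and no quotient by a proper closed two-sided ideal has a unit -/
def NoUnitalQuot (A : Type) [NonUnitalCStarAlgebra A] : Prop :=
  Nontrivial A ∧ ∀ I : Submodule ℂ A, IsClosed (I : Set A) →
    (∀ a, ∀ x ∈ I, a * x ∈ I ∧ x * a ∈ I) → I ≠ ⊤ →
      ¬ ∃ e : A, ∀ a, e * a - a ∈ I ∧ a * e - a ∈ I

/-- closure of an increasing sequence of finite-dimensional *-subalgebras -/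
def IsAF (A : Type) [NonUnitalCStarAlgebra A] : Prop :=
  ∃ B : ℕ → NonUnitalStarSubalgebra ℂ A, Monotone B ∧ (∀ n, FiniteDimensional ℂ (B n)) ∧
    Dense (⋃ n, (B n : Set A))

/-- two multipliers with the same class in the corona algebra -/
def Eqv {A : Type} [NonUnitalCStarAlgebra A] (s t : DoubleCentralizer ℂ A) : Prop :=
  ∃ a : A, s - t = DoubleCentralizer.coe ℂ a

/-- two by two matrices -/
abbrev M2 : Type := Matrix (Fin 2) (Fin 2) ℂ

/-- a lift of a unital *-homomorphism into the corona algebra -/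
def UnitalHomMod {A : Type} [NonUnitalCStarAlgebra A] (φ : M2 → DoubleCentralizer ℂ A) : Prop :=
  Eqv (φ 1) 1 ∧ (∀ x y, Eqv (φ (x + y)) (φ x + φ y)) ∧ (∀ (c : ℂ) x, Eqv (φ (c • x)) (c • φ x)) ∧
    (∀ x y, Eqv (φ (x * y)) (φ x * φ y)) ∧ ∀ x, Eqv (φ (star x)) (star (φ x))

theorem result :
    ∃ (A : Type) (_ : NonUnitalCStarAlgebra A), TopologicalSpace.SeparableSpace A ∧
      NoUnitalQuot A ∧ ¬ IsAF A ∧ ¬ ∃ φ : M2 → DoubleCentralizer ℂ A, UnitalHomMod φ := by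
  refine ⟨AT, inferInstance, AT_sep, ⟨⟨tt 0 0 0, 0, fun h => ?_⟩, ?_⟩, ?_, ?_⟩
  · have := DFunLike.congr_fun (congrArg inc h) (0, 0)
    rw [inc_tt, th_apply, map_zero] at this
    simp [eta, xi, ee_on.ne_zero 0] at this
  · rintro I hc hI ht ⟨e, he⟩
    exact ht (no_unit I hc hI e fun a => (he a).1)
  · rintro ⟨B, -, hB, hd⟩
    exact not_af B hB hd
  · rintro ⟨φ, h1, h2, -, h4, h5⟩
    exact no_lift φ h1 h2 h4 h5

end Pool.Agent.Results.MP_4d6ef8_an.No
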